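import Pool.Agent.N728.SP.Def
import Pool.Agent.H378R2.M1

/-!
# SP/SC: twisted prime sums at good scales
-/

set_option autoImplicit false

namespace Pool.Agent.N475.SP

open Finset DirichletCharacter Pool.Agent.N728.SP Pool.Agent.H410R2 Pool.Agent.H378R2
  Pool.Agent.H378R2.M1

/-- powers are dominated by exponentials -/
theorem dom (K b : ℝ) (k : ℕ) (hb : 0 < b) : ∃ a : ℝ, ∀ l : ℝ, a ≤ l → K * l ^ k ≤ Real.exp (b * l) := by
  obtain ⟨a, ha⟩ := exp_dominates (K / b ^ k) k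
  refine ⟨a / b, fun l hl => ?_⟩
  have h1 := ha (b * l) (by rw [div_le_iff₀ hb] at hl; linarith)
  refine le_trans (le_of_eq ?_) h1
  rw [mul_pow]
  field_simp

/-- the tent-weighted sum at one point -/
theorem tent (d : ℝ) (hd : 0 < d) (hd2 : d ≤ 1 / 2) : ∃ l0 : ℝ, ∀ l : ℝ, l0 ≤ l → ZF d l →
    ∀ f : ℕ, 2 ≤ f → (f : ℝ) ≤ Real.exp (l / 2) →
      ∀ ψ : DirichletCharacter ℂ f, ψ.IsPrimitive → ∀ z : ℝ, Real.exp (l ^ 22 / 2) ≤ z →
        z ≤ Real.exp (l ^ 42) → ‖psiPhi ψ z‖ ≤ z * Real.exp (-(15 * l / 16)) := by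
  obtain ⟨C, hC1, hC⟩ := vM_sum_bound
  obtain ⟨a1, ha1⟩ := dom (768 / d) 1 18 one_pos
  obtain ⟨a2, ha2⟩ := dom (192 * C) (1 / 16) 84 (by norm_num)
  refine ⟨max (max a1 a2) (max (4 / d) 4), fun l hl hZF f hf2 hfl ψ hψ z hz1 hz2 => ?_⟩
  have hla1 : a1 ≤ l := ((le_max_left _ _).trans (le_max_left _ _)).trans hl
  have hla2 : a2 ≤ l := ((le_max_right _ _).trans (le_max_left _ _)).trans hl
  have hld : 4 / d ≤ l := ((le_max_left _ _).trans (le_max_right _ _)).trans hl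
  have hl4 : 4 ≤ l := ((le_max_right _ _).trans (le_max_right _ _)).trans hl
  have hl1 : 1 ≤ l := by linarith
  have hl0 : 0 < l := by linarith
  have hdl : 4 ≤ d * l := by
    rw [div_le_iff₀ hd] at hld
    linarith
  have hD1 := ha1 l hla1
  have hD2 := ha2 l hla2
  rw [one_mul] at hD1
  have hf1 : 1 < f := by omega
  have : NeZero f := ⟨by omega⟩
  have hψ1 : ψ ≠ 1 := primitive_ne_one hf1 hψ
  have hf0 : (0 : ℝ) < f := by exact_mod_cast (by omega : 0 < f)
  have hlogf : Real.log f ≤ l := by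
    have h1 : Real.log f ≤ l / 2 := by
      rw [Real.log_le_iff_le_exp hf0]; exact hfl
    linarith
  have hz0 : 0 < z := (Real.exp_pos _).trans_le hz1
  have hlz1 : l ^ 22 / 2 ≤ Real.log z := by
    rw [Real.le_log_iff_exp_le hz0]; exact hz1
  have hlz2 : Real.log z ≤ l ^ 42 := by
    rw [Real.log_le_iff_le_exp hz0]; exact hz2
  have hp22 : l ≤ l ^ 22 := le_self_pow₀ hl1 (by norm_num)
  have hlz0 : 1 < Real.log z := by linarith
  have hzpos : 0 < Real.log z := by linarith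
  have hz1' : 1 ≤ z := by
    have h1 : (0 : ℝ) ≤ l ^ 22 / 2 := by positivity
    exact (Real.one_le_exp h1).trans hz1
  set δ : ℝ := d / l ^ 18 with hδ
  set M : ℝ := l ^ 18 / d with hM
  set T : ℝ := (Real.exp l - 3) / 2 with hT
  have hδ0 : 0 < δ := by positivity
  have hM0 : 0 ≤ M := by positivity
  have hexp6 : 6 ≤ Real.exp l := by
    have h1 := Real.add_one_le_exp (l / 2)
    have h2 : Real.exp l = Real.exp (l / 2) * Real.exp (l / 2) := by
      rw [← Real.exp_add]; congr 1; ring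
    have h3 : 3 ≤ Real.exp (l / 2) := by linarith
    rw [h2]
    nlinarith
  have hT1 : 1 ≤ T := by rw [hT]; linarith
  have hT4 : Real.exp l / 4 ≤ T := by rw [hT]; linarith
  have hδ4 : δ ≤ 1 / 4 := by
    rw [hδ, div_le_iff₀ (by positivity)]
    have h2 : l ≤ l ^ 18 := le_self_pow₀ hl1 (by norm_num)
    linarith
  -- `δ log z ≥ 2 l`
  have hδz : 2 * l ≤ δ * Real.log z := by
    have h1 : δ * (l ^ 22 / 2) = (d * l) * l ^ 3 / 2 := by
      rw [hδ]; field_simp
    have h2 : l ≤ l ^ 3 := le_self_pow₀ hl1 (by norm_num)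
    have h3 : 4 * l ^ 3 ≤ (d * l) * l ^ 3 := by gcongr
    have h4 : δ * (l ^ 22 / 2) ≤ δ * Real.log z := by gcongr
    linarith
  set c : ℝ := 1 + 1 / Real.log z with hc
  have hc1 : 1 < c := by
    rw [hc]
    have : 0 < 1 / Real.log z := by positivity
    linarith
  have hcδ : c ≤ 1 + δ := by
    rw [hc]
    have h2 : 1 / Real.log z ≤ δ := by
      rw [div_le_iff₀ hzpos]; linarith
    linarith
  have hzc : z ^ c ≤ 3 * z := by
    rw [hc, Real.rpow_add hz0, Real.rpow_one]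
    have h1 : z ^ (1 / Real.log z) = Real.exp 1 := by
      rw [Real.rpow_def_of_pos hz0, mul_one_div_cancel hzpos.ne']
    rw [h1]
    have := Real.exp_one_lt_d9
    nlinarith
  have hA : ∑' n : ℕ, ArithmeticFunction.vonMangoldt n * (n : ℝ) ^ (-c) ≤
      C * (Real.log z) ^ 2 := by
    refine (hC c hc1 (by linarith)).trans (le_of_eq ?_)
    have h1 : c - 1 = 1 / Real.log z := by rw [hc]; ring
    rw [h1]
    field_simp
  have hcont := contour ψ hψ1 hz1' hc1 hδ0 hδ4 hcδ hzc hT1 hM0 hA (by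
    intro s h1 h2
    refine hZF f hf1 hlogf ψ hψ s h1 ?_
    have h3 : 2 * |s.im| + 3 ≤ Real.exp l := by
      rw [hT] at h2; linarith
    rw [Real.log_le_iff_le_exp (by positivity)]
    exact h3)
  refine hcont.trans ?_
  set E : ℝ := Real.exp (-(15 * l / 16)) with hE
  have hE0 : 0 < E := Real.exp_pos _
  have hM768 : 768 * M ≤ Real.exp l := by
    refine le_trans (le_of_eq ?_) hD1
    rw [hM]; ring
  have hT0 : 0 < T := by linarith
  have hexpl : 0 < Real.exp l := Real.exp_pos l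
  -- the three terms
  have hzδ : z ^ (1 - δ) ≤ z * Real.exp (-(2 * l)) := by
    rw [sub_eq_add_neg, Real.rpow_add hz0, Real.rpow_one, Real.rpow_def_of_pos hz0]
    gcongr
    linarith
  have hMe : 768 * M * Real.exp (-(2 * l)) ≤ E := by
    calc 768 * M * Real.exp (-(2 * l)) ≤ Real.exp l * Real.exp (-(2 * l)) := by gcongr
      _ = Real.exp (-l) := by rw [← Real.exp_add]; congr 1; ring
      _ ≤ E := by rw [hE]; gcongr; linarith
  have t1 : 48 * (z ^ (1 - δ) * M) ≤ z * E := by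
    calc 48 * (z ^ (1 - δ) * M) ≤ 48 * (z * Real.exp (-(2 * l)) * M) := by gcongr
      _ = z * (48 * M * Real.exp (-(2 * l))) := by ring
      _ ≤ z * (768 * M * Real.exp (-(2 * l))) := by gcongr; norm_num
      _ ≤ z * E := by gcongr
  have hT2 : 1 / T ^ 2 ≤ 16 * Real.exp (-(2 * l)) := by
    have h1 : (Real.exp l / 4) ^ 2 ≤ T ^ 2 := by gcongr
    have h2 : Real.exp (-(2 * l)) * (Real.exp l) ^ 2 = 1 := by
      rw [← Real.exp_nat_mul, ← Real.exp_add]
      norm_num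
    rw [div_le_iff₀ (by positivity)]
    calc (1 : ℝ) = 16 * Real.exp (-(2 * l)) * (Real.exp l / 4) ^ 2 := by
          linear_combination -h2
      _ ≤ 16 * Real.exp (-(2 * l)) * T ^ 2 := by gcongr
  have t2 : 48 * (z * M / T ^ 2) ≤ z * E := by
    calc 48 * (z * M / T ^ 2) = z * (48 * M * (1 / T ^ 2)) := by ring
      _ ≤ z * (48 * M * (16 * Real.exp (-(2 * l)))) := by gcongr
      _ = z * (768 * M * Real.exp (-(2 * l))) := by ring
      _ ≤ z * E := by gcongr
  have hT3 : 1 / T ≤ 4 * Real.exp (-l) := by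
    have h2 : Real.exp (-l) * Real.exp l = 1 := by
      rw [← Real.exp_add]
      norm_num
    rw [div_le_iff₀ hT0]
    calc (1 : ℝ) = 4 * Real.exp (-l) * (Real.exp l / 4) := by
          linear_combination -h2
      _ ≤ 4 * Real.exp (-l) * T := by gcongr
  have hAl : C * Real.log z ^ 2 ≤ C * l ^ 84 := by
    have h1 : Real.log z ^ 2 ≤ (l ^ 42) ^ 2 := by gcongr
    have h2 : (l ^ 42) ^ 2 = l ^ 84 := by ring
    rw [h2] at h1
    gcongr
  have t3 : 48 * (z * (C * Real.log z ^ 2) / T) ≤ z * E := by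
    calc 48 * (z * (C * Real.log z ^ 2) / T) = z * (48 * (C * Real.log z ^ 2) * (1 / T)) := by ring
      _ ≤ z * (48 * (C * l ^ 84) * (4 * Real.exp (-l))) := by gcongr
      _ = z * ((192 * C * l ^ 84) * Real.exp (-l)) := by ring
      _ ≤ z * (Real.exp (1 / 16 * l) * Real.exp (-l)) := by gcongr
      _ = z * E := by rw [← Real.exp_add, hE]; congr 2; ring
  linarith

theorem PP_eq {f : ℕ} (ψ : DirichletCharacter ℂ f) (z : ℝ) :
    PP (fun n => ((ArithmeticFunction.vonMangoldt n : ℝ) : ℂ) * ψ (n : ZMod f)) z = psiPhi ψ z := by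
  unfold PP psiPhi
  refine sum_congr rfl fun n _ => ?_
  push_cast
  ring

theorem PL_eq {f : ℕ} (ψ : DirichletCharacter ℂ f) (z : ℝ) :
    PL (fun n => ((ArithmeticFunction.vonMangoldt n : ℝ) : ℂ) * ψ (n : ZMod f)) z =
      psiLog z f ψ := by
  unfold PL psiLog
  rfl

/-- trivial bound -/
theorem PL_triv {f : ℕ} (ψ : DirichletCharacter ℂ f) (z : ℝ) (hz : 1 ≤ z) :
    ‖PL (fun n => ((ArithmeticFunction.vonMangoldt n : ℝ) : ℂ) * ψ (n : ZMod f)) z‖ ≤
      Real.log z ^ 2 * z := by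
  unfold PL
  have hlz : 0 ≤ Real.log z := Real.log_nonneg hz
  have hb : ∀ n ∈ Icc 1 ⌊z⌋₊,
      ‖(((ArithmeticFunction.vonMangoldt n : ℝ) : ℂ) * ψ (n : ZMod f)) *
        ((Real.log (z / n) : ℝ) : ℂ)‖ ≤ Real.log z ^ 2 := by
    intro n hn
    rw [mem_Icc] at hn
    have hn0 : (0 : ℝ) < n := by exact_mod_cast (by omega : 0 < n)
    have hn1 : (1 : ℝ) ≤ n := by exact_mod_cast hn.1
    have hnz : (n : ℝ) ≤ z := (Nat.le_floor_iff (by linarith)).1 hn.2
    have h1 : ‖((ArithmeticFunction.vonMangoldt n : ℝ) : ℂ)‖ ≤ Real.log z := by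
      rw [Complex.norm_real, Real.norm_of_nonneg ArithmeticFunction.vonMangoldt_nonneg]
      exact (ArithmeticFunction.vonMangoldt_le_log).trans (Real.log_le_log hn0 hnz)
    have h2 : ‖ψ (n : ZMod f)‖ ≤ 1 := ψ.norm_le_one _
    have h3 : ‖((Real.log (z / n) : ℝ) : ℂ)‖ ≤ Real.log z := by
      have h4 : 1 ≤ z / n := by rw [le_div_iff₀ hn0]; linarith
      have h5 : z / n ≤ z := div_le_self (by linarith) hn1
      rw [Complex.norm_real, Real.norm_of_nonneg (Real.log_nonneg h4)]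
      exact Real.log_le_log (by linarith) h5
    rw [norm_mul, norm_mul]
    calc ‖((ArithmeticFunction.vonMangoldt n : ℝ) : ℂ)‖ * ‖ψ (n : ZMod f)‖ *
          ‖((Real.log (z / n) : ℝ) : ℂ)‖ ≤ Real.log z * 1 * Real.log z := by gcongr
      _ = _ := by ring
  calc _ ≤ ∑ n ∈ Icc 1 ⌊z⌋₊, Real.log z ^ 2 := norm_sum_le_of_le _ hb
    _ = (⌊z⌋₊ : ℝ) * Real.log z ^ 2 := by
        rw [sum_const, Nat.card_Icc, nsmul_eq_mul]; simp
    _ ≤ z * Real.log z ^ 2 := by
        gcongr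
        exact Nat.floor_le (by linarith)
    _ = _ := by ring

/-- SC: twisted prime sums at good scales -/
theorem t_SC (h : S_TEL) : S_SC := by
  intro d hd hd2
  obtain ⟨l1, hl1⟩ := tent d hd hd2
  obtain ⟨a1, ha1⟩ := dom 26 (1 / 4) 85 (by norm_num)
  obtain ⟨a2, ha2⟩ := dom 18 (3 / 16) 2 (by norm_num)
  refine ⟨max (max a1 a2) (max l1 4), fun l hl hZF f hf2 hfl ψ hψ x hx1 hx2 => ?_⟩
  have hla1 : a1 ≤ l := ((le_max_left _ _).trans (le_max_left _ _)).trans hl
  have hla2 : a2 ≤ l := ((le_max_right _ _).trans (le_max_left _ _)).trans hl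
  have hll1 : l1 ≤ l := ((le_max_left _ _).trans (le_max_right _ _)).trans hl
  have hl4 : 4 ≤ l := ((le_max_right _ _).trans (le_max_right _ _)).trans hl
  have hD1 := ha1 l hla1
  have hD2 := ha2 l hla2
  have hlpos : 0 < l := by linarith
  have hx0 : 0 < x := (Real.exp_pos _).trans_le hx1
  have hlx : Real.log x ≤ l ^ 42 := by
    rw [Real.log_le_iff_le_exp hx0]; exact hx2
  set K : ℕ := ⌈2 * l⌉₊ with hK
  have hK1 : 2 * l ≤ (K : ℝ) := Nat.le_ceil _
  have hK2 : (K : ℝ) ≤ 2 * l + 1 := (Nat.ceil_lt_add_one (by linarith)).le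
  have hK3 : (K : ℝ) ≤ 3 * l := by linarith
  have hK0 : 1 ≤ K := by
    rw [hK]
    exact Nat.one_le_ceil_iff.2 (by linarith)
  have hlow : Real.exp (l ^ 22 / 2) ≤ x * Real.exp (-(K / 2)) := by
    calc Real.exp (l ^ 22 / 2) ≤ Real.exp (l ^ 22) * Real.exp (-(K / 2)) := by
          rw [← Real.exp_add]
          gcongr
          have h1 : l ^ 2 ≤ l ^ 22 := pow_le_pow_right₀ (by linarith) (by norm_num)
          nlinarith
      _ ≤ x * Real.exp (-(K / 2)) := by gcongr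
  have hlow1 : 1 ≤ x * Real.exp (-(K / 2)) := by
    have h1 : (0 : ℝ) ≤ l ^ 22 / 2 := by positivity
    exact (Real.one_le_exp h1).trans hlow
  have hTEL := h (fun n => ((ArithmeticFunction.vonMangoldt n : ℝ) : ℂ) * ψ (n : ZMod f)) x
    (Real.exp (-(15 * l / 16))) (l ^ 84) K hK0 (Real.exp_pos _).le (by positivity) hlow1
    (by
      intro z hz1 hz2
      rw [PP_eq, mul_comm]
      exact hl1 l hll1 hZF f hf2 hfl ψ hψ z (hlow.trans hz1) (hz2.trans hx2))
    (by
      intro z hz1 hz2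
      refine (PL_triv ψ z hz1).trans ?_
      have h1 : 0 ≤ Real.log z := Real.log_nonneg hz1
      have h2 : Real.log z ≤ l ^ 42 := (Real.log_le_log (by linarith) hz2).trans hlx
      have h3 : Real.log z ^ 2 ≤ (l ^ 42) ^ 2 := by gcongr
      have h4 : (l ^ 42) ^ 2 = l ^ 84 := by ring
      rw [h4] at h3
      gcongr)
  rw [PL_eq] at hTEL
  refine hTEL.trans ?_
  have hKe : Real.exp (-(K / 2 : ℝ)) ≤ Real.exp (-l) := by
    gcongr
    linarith
  have s1 : (4 * K + 1) * l ^ 84 * x * Real.exp (-(K / 2)) ≤ x * Real.exp (-(3 * l / 4)) / 2 := by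
    have h1 : (4 * (K : ℝ) + 1) ≤ 13 * l := by linarith
    calc (4 * K + 1) * l ^ 84 * x * Real.exp (-(K / 2)) ≤
          (13 * l) * l ^ 84 * x * Real.exp (-l) := by gcongr
      _ = x * ((26 * l ^ 85) * Real.exp (-l)) / 2 := by ring
      _ ≤ x * (Real.exp (1 / 4 * l) * Real.exp (-l)) / 2 := by gcongr
      _ = x * Real.exp (-(3 * l / 4)) / 2 := by
          rw [← Real.exp_add]; congr 3; ring
  have s2 : (K : ℝ) ^ 2 * Real.exp (-(15 * l / 16)) * x ≤ x * Real.exp (-(3 * l / 4)) / 2 := by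
    calc (K : ℝ) ^ 2 * Real.exp (-(15 * l / 16)) * x ≤
          (3 * l) ^ 2 * Real.exp (-(15 * l / 16)) * x := by gcongr
      _ = x * ((18 * l ^ 2) * Real.exp (-(15 * l / 16))) / 2 := by ring
      _ ≤ x * (Real.exp (3 / 16 * l) * Real.exp (-(15 * l / 16))) / 2 := by gcongr
      _ = x * Real.exp (-(3 * l / 4)) / 2 := by
          rw [← Real.exp_add]; congr 3; ring
  linarith

end Pool.Agent.N475.SP
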